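import Pool.Agent.H37.UMD.Stmts2

/-!
Ultimate matching, dual proof, module FOL: folding.
-/

set_option autoImplicit false

open MeasureTheory ProbabilityTheory Finset

namespace Pool.UMD

lemma FOL_lt (m : ℕ) (hm : 1 ≤ m) (i : ℤ) : fo m i < m := by
  have h1 : 0 ≤ i % (2 * m) := Int.emod_nonneg _ (by omega)
  have h2 : i % (2 * m) < 2 * m := Int.emod_lt_of_pos _ (by omega)
  unfold fo
  split_ifs with h <;> omega

lemma FOL_per (m : ℕ) (i : ℤ) : fo m (i + 2 * m) = fo m i := by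
  unfold fo
  rw [Int.add_emod_right]

lemma FOL_lo (m i : ℕ) (h : i < m) : fo m i = i := by
  have h1 : ((i : ℤ)) % (2 * m) = i := Int.emod_eq_of_lt (by omega) (by omega)
  unfold fo
  rw [h1, if_pos (by omega)]
  simp

lemma FOL_hi (m i : ℕ) (h : i < m) : fo m ((m + i : ℕ) : ℤ) = m - 1 - i := by
  have h1 : (((m + i : ℕ) : ℤ)) % (2 * m) = ((m + i : ℕ) : ℤ) :=
    Int.emod_eq_of_lt (by omega) (by push_cast; omega)
  unfold fo
  rw [h1, if_neg (by push_cast; omega)]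
  omega

lemma FOL_sum (m : ℕ) (u : ℕ → ℝ) :
    ∑ i ∈ range (2 * m), u (fo m (i : ℕ)) = 2 * ∑ i ∈ range m, u i := by
  rw [two_mul, Finset.sum_range_add, two_mul]
  congr 1
  · refine Finset.sum_congr rfl fun i hi => ?_
    rw [FOL_lo m i (Finset.mem_range.1 hi)]
  · rw [← Finset.sum_range_reflect]
    refine Finset.sum_congr rfl fun i hi => ?_
    have hi' := Finset.mem_range.1 hi
    rw [FOL_hi m _ (by omega)]
    congr 1
    omega

lemma FOL_one (v : ℤ → ℝ) (N : ℕ) :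
    IntegrableOn (fun t : ℝ => v ⌊t⌋) (Set.Ico (0 : ℝ) N) ∧
      ∫ t in Set.Ico (0 : ℝ) N, v ⌊t⌋ = ∑ i ∈ range N, v i := by
  induction N with
  | zero => simp
  | succ N ih =>
    have hun : Set.Ico (0 : ℝ) ((N + 1 : ℕ) : ℝ) = Set.Ico (0 : ℝ) N ∪ Set.Ico (N : ℝ) (N + 1) := by
      rw [Set.Ico_union_Ico_eq_Ico (by positivity) (by linarith)]
      push_cast
      rfl
    have heq : Set.EqOn (fun t : ℝ => v ⌊t⌋) (fun _ => v N) (Set.Ico (N : ℝ) (N + 1)) := by
      intro t ht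
      have : ⌊t⌋ = (N : ℤ) := by
        rw [Int.floor_eq_iff]
        push_cast
        exact ⟨ht.1, ht.2⟩
      simp [this]
    have hint : IntegrableOn (fun t : ℝ => v ⌊t⌋) (Set.Ico (N : ℝ) (N + 1)) := by
      rw [integrableOn_congr_fun heq measurableSet_Ico]
      exact integrableOn_const (by simp) (by simp)
    have hdis : Disjoint (Set.Ico (0 : ℝ) N) (Set.Ico (N : ℝ) (N + 1)) := by
      rw [Set.disjoint_left]
      intro t h1 h2
      exact absurd h1.2 (not_lt.2 h2.1)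
    refine ⟨?_, ?_⟩
    · rw [hun]
      exact ih.1.union hint
    · rw [hun, setIntegral_union hdis measurableSet_Ico ih.1 hint, ih.2,
        setIntegral_congr_fun measurableSet_Ico heq, Finset.sum_range_succ]
      simp

lemma FOL_int1 (m : ℕ) (u : ℕ → ℝ) :
    IntegrableOn (fun t : ℝ => u (fo m ⌊t⌋)) (Set.Ico (0 : ℝ) (2 * m)) ∧
      ∫ t in Set.Ico (0 : ℝ) (2 * m), u (fo m ⌊t⌋) = 2 * ∑ i ∈ range m, u i := by
  have h := FOL_one (fun i => u (fo m i)) (2 * m)
  rw [FOL_sum] at h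
  push_cast at h
  exact h

theorem sFol : SFol := by
  intro m hm
  refine ⟨FOL_lt m hm, FOL_per m, fun h => ?_⟩
  have hmeas : Measurable (fun x : ℝ × ℝ => h (fo m ⌊x.1⌋) (fo m ⌊x.2⌋)) := by
    have h1 : Measurable (fun x : ℝ × ℝ => (⌊x.1⌋, ⌊x.2⌋)) :=
      (Int.measurable_floor.comp measurable_fst).prodMk (Int.measurable_floor.comp measurable_snd)
    have h2 : Measurable (fun q : ℤ × ℤ => h (fo m q.1) (fo m q.2)) := Measurable.of_discrete
    exact h2.comp h1
  refine ⟨hmeas, ?_, ?_⟩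
  · intro x
    have hf : ∀ t : ℝ, ⌊t + 2 * (m : ℝ)⌋ = ⌊t⌋ + 2 * (m : ℤ) := by
      intro t
      have : t + 2 * (m : ℝ) = t + ((2 * (m : ℤ) : ℤ) : ℝ) := by push_cast; ring
      rw [this, Int.floor_add_intCast]
    constructor
    · show h (fo m ⌊x.1 + 2 * (m : ℝ)⌋) (fo m ⌊x.2⌋) = _
      rw [hf, FOL_per]
    · show h (fo m ⌊x.1⌋) (fo m ⌊x.2 + 2 * (m : ℝ)⌋) = _
      rw [hf, FOL_per]
  · unfold Box
    rw [Measure.volume_eq_prod, setIntegral_prod]
    · have h1 : ∀ x : ℝ, ∫ y in Set.Ico (0 : ℝ) (2 * m), h (fo m ⌊x⌋) (fo m ⌊y⌋) =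
          2 * ∑ j ∈ range m, h (fo m ⌊x⌋) j := fun x => (FOL_int1 m (h (fo m ⌊x⌋))).2
      simp only [h1]
      rw [(FOL_int1 m (fun i => 2 * ∑ j ∈ range m, h i j)).2, ← Finset.mul_sum]
      ring
    · haveI : IsFiniteMeasure ((volume : Measure (ℝ × ℝ)).restrict
          (Set.Ico (0 : ℝ) (2 * m) ×ˢ Set.Ico (0 : ℝ) (2 * m))) := by
        refine ⟨?_⟩
        rw [Measure.restrict_apply_univ, Measure.volume_eq_prod, Measure.prod_prod]
        simp only [Real.volume_Ico]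
        exact ENNReal.mul_lt_top ENNReal.ofReal_lt_top ENNReal.ofReal_lt_top
      refine Integrable.of_bound hmeas.aestronglyMeasurable
        (∑ i ∈ range m, ∑ j ∈ range m, |h i j|) (Filter.Eventually.of_forall fun x => ?_)
      rw [Real.norm_eq_abs]
      have h1 := Finset.single_le_sum (f := fun j => |h (fo m ⌊x.1⌋) j|)
        (fun j _ => abs_nonneg _) (Finset.mem_range.2 (FOL_lt m hm ⌊x.2⌋))
      have h2 := Finset.single_le_sum (f := fun i => ∑ j ∈ range m, |h i j|)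
        (fun i _ => Finset.sum_nonneg fun j _ => abs_nonneg _)
        (Finset.mem_range.2 (FOL_lt m hm ⌊x.1⌋))
      exact h1.trans h2

end Pool.UMD
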