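import Pool.Agent.H65.UMD.FOL

/-!
Ultimate matching, dual proof, module MAS: mass of a folded unit cell.
-/

set_option autoImplicit false

open MeasureTheory ProbabilityTheory Finset

namespace Pool.UMD

/-- the indicator of the folded cell in one variable -/
noncomputable def MAS_chi (m i : ℕ) (t : ℝ) : ℝ := if fo m ⌊t⌋ = i then 1 else 0

lemma MAS_chi_meas (m i : ℕ) : Measurable (MAS_chi m i) := by
  have h2 : Measurable (fun q : ℤ => (if fo m q = i then 1 else 0 : ℝ)) := Measurable.of_discrete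
  exact h2.comp Int.measurable_floor

lemma MAS_chi_nonneg (m i : ℕ) (t : ℝ) : 0 ≤ MAS_chi m i t := by
  unfold MAS_chi; split_ifs <;> norm_num

lemma MAS_chi_le (m i : ℕ) (t : ℝ) : MAS_chi m i t ≤ 1 := by
  unfold MAS_chi; split_ifs <;> norm_num

lemma MAS_chi_per (m i : ℕ) : Function.Periodic (MAS_chi m i) (2 * m : ℝ) := by
  intro t
  unfold MAS_chi
  have : t + 2 * (m : ℝ) = t + ((2 * (m : ℤ) : ℤ) : ℝ) := by push_cast; ring
  rw [this, Int.floor_add_intCast, FOL_per]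

lemma MAS_period (m i : ℕ) (b : ℝ) :
    ∫ s in Set.Icc (-(m : ℝ)) m, MAS_chi m i (b - s) ≤ 2 := by
  have hm : (-(m : ℝ)) ≤ m := by
    have : (0 : ℝ) ≤ m := Nat.cast_nonneg m
    linarith
  rw [integral_Icc_eq_integral_Ioc, ← intervalIntegral.integral_of_le hm,
    intervalIntegral.integral_comp_sub_left (fun x => MAS_chi m i x)]
  have h1 : b - -(m : ℝ) = (b - m) + 2 * m := by ring
  rw [h1, (MAS_chi_per m i).intervalIntegral_add_eq (b - m) 0, zero_add,
    intervalIntegral.integral_of_le (by positivity), ← integral_Ico_eq_integral_Ioc]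
  have h2 := (FOL_int1 m (fun q => if q = i then (1 : ℝ) else 0)).2
  unfold MAS_chi
  rw [h2]
  have h3 : ∑ q ∈ range m, (if q = i then (1 : ℝ) else 0) ≤ 1 := by
    rw [Finset.sum_ite_eq']
    split_ifs <;> norm_num
  linarith

lemma MAS_gint (b : ℝ) (hb : 0 < b) : Integrable (fun t : ℝ => Real.exp (-b * t ^ 2)) :=
  integrable_exp_neg_mul_sq hb

lemma MAS_one (m i : ℕ) (hm : 1 ≤ m) (a : ℝ) :
    ∫ t, MAS_chi m i (a + t) * Real.exp (-(1 / (32 * (m : ℝ) ^ 2)) * t ^ 2) ≤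
      8 * Real.exp (1 / 32) * √Real.pi := by
  have hm0 : (0 : ℝ) < m := by exact_mod_cast hm
  set b : ℝ := 1 / (32 * (m : ℝ) ^ 2) with hb
  set c : ℝ := 1 / (64 * (m : ℝ) ^ 2) with hc
  have hb0 : 0 < b := by positivity
  have hc0 : 0 < c := by positivity
  set J : ℝ := ∫ t, MAS_chi m i (a + t) * Real.exp (-b * t ^ 2) with hJ
  have hmeas : Measurable (MAS_chi m i) := MAS_chi_meas m i
  -- integrability of bounded times Gaussian
  have hbm : ∀ (f : ℝ → ℝ) (g : ℝ → ℝ), Measurable f → (∀ t, 0 ≤ f t ∧ f t ≤ 1) → Integrable g →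
      Integrable (fun t => f t * g t) := by
    intro f g hf hf1 hg
    refine hg.bdd_mul (c := 1) hf.aestronglyMeasurable (Filter.Eventually.of_forall fun t => ?_)
    rw [Real.norm_eq_abs, abs_of_nonneg (hf1 t).1]
    exact (hf1 t).2
  have h1 : ∀ s ∈ Set.Icc (-(m : ℝ)) m,
      J ≤ Real.exp (1 / 32) * ∫ u, MAS_chi m i (a + u - s) * Real.exp (-c * u ^ 2) := by
    intro s hs
    have e1 : ∫ u, MAS_chi m i (a + u - s) * Real.exp (-c * u ^ 2) =
        ∫ t, MAS_chi m i (a + t) * Real.exp (-c * (t + s) ^ 2) := by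
      rw [← integral_add_right_eq_self (fun u => MAS_chi m i (a + u - s) *
        Real.exp (-c * u ^ 2)) s]
      refine integral_congr_ae (Filter.Eventually.of_forall fun t => ?_)
      simp only
      congr 2
      ring
    rw [e1, ← integral_const_mul]
    refine integral_mono ?_ ?_ ?_
    · exact hbm _ _ (hmeas.comp (measurable_const.add measurable_id))
        (fun t => ⟨MAS_chi_nonneg _ _ _, MAS_chi_le _ _ _⟩) (MAS_gint b hb0)
    · refine Integrable.const_mul ?_ _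
      exact hbm _ _ (hmeas.comp (measurable_const.add measurable_id))
        (fun t => ⟨MAS_chi_nonneg _ _ _, MAS_chi_le _ _ _⟩)
        ((MAS_gint c hc0).comp_add_right s)
    · intro t
      simp only
      have h2 : Real.exp (-b * t ^ 2) ≤ Real.exp (1 / 32) * Real.exp (-c * (t + s) ^ 2) := by
        rw [← Real.exp_add]
        apply Real.exp_le_exp.2
        have hs2 : s ^ 2 ≤ (m : ℝ) ^ 2 := by
          have := hs.1; have := hs.2
          nlinarith
        have hb2 : b = 2 * c := by rw [hb, hc]; field_simp; norm_num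
        have hcm : c * (m : ℝ) ^ 2 = 1 / 64 := by rw [hc]; field_simp
        have h3 : c * s ^ 2 ≤ c * (m : ℝ) ^ 2 := mul_le_mul_of_nonneg_left hs2 hc0.le
        nlinarith [mul_nonneg hc0.le (sq_nonneg (t - s))]
      calc MAS_chi m i (a + t) * Real.exp (-b * t ^ 2)
          ≤ MAS_chi m i (a + t) * (Real.exp (1 / 32) * Real.exp (-c * (t + s) ^ 2)) :=
            mul_le_mul_of_nonneg_left h2 (MAS_chi_nonneg _ _ _)
        _ = Real.exp (1 / 32) * (MAS_chi m i (a + t) * Real.exp (-c * (t + s) ^ 2)) := by ring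
  -- the function of two variables
  have hF : Integrable (Function.uncurry fun (s u : ℝ) =>
      MAS_chi m i (a + u - s) * Real.exp (-c * u ^ 2))
      ((volume.restrict (Set.Icc (-(m : ℝ)) m)).prod volume) := by
    have hg : Integrable (fun q : ℝ × ℝ => Real.exp (-c * q.2 ^ 2))
        ((volume.restrict (Set.Icc (-(m : ℝ)) m)).prod volume) := (MAS_gint c hc0).comp_snd _
    refine hg.bdd_mul (c := 1) ?_ (Filter.Eventually.of_forall fun q => ?_)
    · exact (hmeas.comp ((measurable_const.add measurable_snd).sub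
        measurable_fst)).aestronglyMeasurable
    · rw [Real.norm_eq_abs, abs_of_nonneg (MAS_chi_nonneg _ _ _)]
      exact MAS_chi_le _ _ _
  have hsw := integral_integral_swap hF
  have hK : Integrable (fun s => ∫ u, MAS_chi m i (a + u - s) * Real.exp (-c * u ^ 2))
      (volume.restrict (Set.Icc (-(m : ℝ)) m)) := hF.integral_prod_left
  have h4 : ∫ s in Set.Icc (-(m : ℝ)) m, J ≤ ∫ s in Set.Icc (-(m : ℝ)) m,
      Real.exp (1 / 32) * ∫ u, MAS_chi m i (a + u - s) * Real.exp (-c * u ^ 2) := by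
    refine setIntegral_mono_on ?_ (hK.const_mul _) measurableSet_Icc h1
    exact integrable_const _
  rw [integral_const_mul, hsw] at h4
  have h5 : ∫ u, ∫ s in Set.Icc (-(m : ℝ)) m, MAS_chi m i (a + u - s) * Real.exp (-c * u ^ 2) ≤
      ∫ u : ℝ, 2 * Real.exp (-c * u ^ 2) := by
    refine integral_mono hF.swap.integral_prod_left ((MAS_gint c hc0).const_mul 2) fun u => ?_
    simp only
    rw [integral_mul_const]
    exact mul_le_mul_of_nonneg_right (MAS_period m i (a + u)) (Real.exp_nonneg _)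
  rw [integral_const_mul, integral_gaussian] at h5
  have h6 : √(Real.pi / c) = 8 * m * √Real.pi := by
    have : Real.pi / c = (8 * m) ^ 2 * Real.pi := by
      rw [hc]; field_simp; norm_num
    rw [this, Real.sqrt_mul (by positivity), Real.sqrt_sq (by positivity)]
  rw [h6] at h5
  have h7 : ∫ s in Set.Icc (-(m : ℝ)) m, J = 2 * m * J := by
    rw [setIntegral_const]
    simp only [measureReal_def, Real.volume_Icc, smul_eq_mul]
    rw [ENNReal.toReal_ofReal (by linarith)]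
    ring
  rw [h7] at h4
  have h8 : 2 * m * J ≤ Real.exp (1 / 32) * (2 * (8 * m * √Real.pi)) :=
    h4.trans (mul_le_mul_of_nonneg_left h5 (Real.exp_nonneg _))
  have h9 : (2 * (m : ℝ)) * J ≤ (2 * m) * (8 * Real.exp (1 / 32) * √Real.pi) := by
    linarith
  exact le_of_mul_le_mul_left h9 (by positivity)

/-- the linear map of a matrix -/
noncomputable def MAS_lin (A : Mat) : ℝ × ℝ →ₗ[ℝ] ℝ × ℝ :=
  Matrix.toLin (Module.Basis.finTwoProd ℝ) (Module.Basis.finTwoProd ℝ) !![A.a, A.b; A.c, A.d]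

lemma MAS_lin_apply (A : Mat) (z : ℝ × ℝ) : MAS_lin A z = A.ap z := by
  unfold MAS_lin
  rw [Matrix.toLin_finTwoProd_apply]
  rfl

lemma MAS_lin_det (A : Mat) : LinearMap.det (MAS_lin A) = A.det := by
  unfold MAS_lin
  rw [LinearMap.det_toLin, Matrix.det_fin_two_of]
  rfl

lemma MAS_cov (A : Mat) (hA : 0 < A.det) (G : ℝ × ℝ → ℝ) (hG : Integrable G) :
    Integrable (fun z => G (A.ap z)) ∧ ∫ z, G (A.ap z) = A.det⁻¹ * ∫ y, G y := by
  have hdet : LinearMap.det (MAS_lin A) ≠ 0 := by rw [MAS_lin_det]; exact hA.ne'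
  have hmap := Measure.map_linearMap_addHaar_eq_smul_addHaar (volume : Measure (ℝ × ℝ)) hdet
  have hmeas : Measurable (MAS_lin A) :=
    (LinearMap.continuous_of_finiteDimensional _).measurable
  have habs : |(LinearMap.det (MAS_lin A))⁻¹| = A.det⁻¹ := by
    rw [MAS_lin_det, abs_of_pos (inv_pos.2 hA)]
  have hfun : (fun z => G (A.ap z)) = fun z => G (MAS_lin A z) := by
    funext z; rw [MAS_lin_apply]
  have hG' : Integrable G (Measure.map (MAS_lin A) volume) := by
    rw [hmap]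
    exact hG.smul_measure ENNReal.ofReal_ne_top
  rw [hfun]
  refine ⟨?_, ?_⟩
  · exact (integrable_map_measure hG'.aestronglyMeasurable hmeas.aemeasurable).1 hG'
  · rw [← integral_map hmeas.aemeasurable hG'.aestronglyMeasurable, hmap, integral_smul_measure,
      habs, ENNReal.toReal_ofReal (inv_pos.2 hA).le, smul_eq_mul]

lemma MAS_g2 (f : ℝ × ℝ → ℝ) (hf : Measurable f) (M : ℝ) (hM : ∀ z, |f z| ≤ M) :
    Integrable (fun z : ℝ × ℝ => gaussianPDFReal 0 1 z.1 * gaussianPDFReal 0 1 z.2 * f z) ∧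
    ∫ z, f z ∂g2 =
      ∫ z : ℝ × ℝ, gaussianPDFReal 0 1 z.1 * gaussianPDFReal 0 1 z.2 * f z := by
  have hp : Integrable (gaussianPDFReal 0 1) := integrable_gaussianPDFReal 0 1
  have hpp : Integrable (fun z : ℝ × ℝ => gaussianPDFReal 0 1 z.1 * gaussianPDFReal 0 1 z.2) := by
    rw [Measure.volume_eq_prod]
    exact hp.mul_prod hp
  have hint : Integrable (fun z : ℝ × ℝ =>
      gaussianPDFReal 0 1 z.1 * gaussianPDFReal 0 1 z.2 * f z) :=
    hpp.mul_bdd (c := M) hf.aestronglyMeasurable (Filter.Eventually.of_forall fun z => hM z)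
  refine ⟨hint, ?_⟩
  have hfi : Integrable f g2 :=
    Integrable.of_bound hf.aestronglyMeasurable M (Filter.Eventually.of_forall fun z => hM z)
  rw [integral_prod _ hfi, Measure.volume_eq_prod, integral_prod _ hint]
  rw [integral_gaussianReal_eq_integral_smul (by norm_num)]
  refine integral_congr_ae (Filter.Eventually.of_forall fun x => ?_)
  simp only
  rw [integral_gaussianReal_eq_integral_smul (by norm_num), smul_eq_mul, ← integral_const_mul]
  refine integral_congr_ae (Filter.Eventually.of_forall fun y => ?_)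
  simp only [smul_eq_mul]
  ring

lemma MAS_pdf (x : ℝ) : gaussianPDFReal 0 1 x = (√(2 * Real.pi))⁻¹ * Real.exp (-(x ^ 2 / 2)) := by
  simp only [gaussianPDFReal, NNReal.coe_one, mul_one, sub_zero]
  congr 2
  ring

lemma MAS_iq (m i j : ℕ) (x : ℝ × ℝ) : iq m i j x = MAS_chi m i x.1 * MAS_chi m j x.2 := by
  unfold iq MAS_chi
  by_cases h1 : fo m ⌊x.1⌋ = i <;> by_cases h2 : fo m ⌊x.2⌋ = j <;> simp [h1, h2]

theorem sMas : SMas := by
  refine ⟨1 + (8 * Real.exp (1 / 32) * √Real.pi) ^ 2, le_add_of_nonneg_right (sq_nonneg _),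
    fun m i j A a hm hA hnm => ?_⟩
  have hm0 : (0 : ℝ) < m := by exact_mod_cast hm
  set C1 : ℝ := 8 * Real.exp (1 / 32) * √Real.pi with hC1
  have hC10 : 0 ≤ C1 := by positivity
  set b : ℝ := 1 / (32 * (m : ℝ) ^ 2) with hb
  have hb0 : 0 < b := by positivity
  set G1 : ℝ → ℝ := fun t => MAS_chi m i (a.1 + t) * Real.exp (-b * t ^ 2) with hG1
  set G2 : ℝ → ℝ := fun t => MAS_chi m j (a.2 + t) * Real.exp (-b * t ^ 2) with hG2
  have hint : ∀ (q : ℕ) (c : ℝ), Integrable (fun t => MAS_chi m q (c + t) *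
      Real.exp (-b * t ^ 2)) := by
    intro q c
    refine (MAS_gint b hb0).bdd_mul (c := 1) ((MAS_chi_meas m q).comp
      (measurable_const.add measurable_id)).aestronglyMeasurable
      (Filter.Eventually.of_forall fun t => ?_)
    rw [Real.norm_eq_abs, abs_of_nonneg (MAS_chi_nonneg _ _ _)]
    exact MAS_chi_le _ _ _
  have hi1 : Integrable G1 := hint i a.1
  have hi2 : Integrable G2 := hint j a.2
  have hG : Integrable (fun y : ℝ × ℝ => G1 y.1 * G2 y.2) := by
    rw [Measure.volume_eq_prod]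
    exact hi1.mul_prod hi2
  obtain ⟨hcv1, hcv2⟩ := MAS_cov A hA _ hG
  have hfm : Measurable (fun z : ℝ × ℝ => iq m i j (a + A.ap z)) := by
    have h1 : Measurable (fun z : ℝ × ℝ => a + A.ap z) := by
      unfold Mat.ap
      fun_prop
    have h2 : (fun z : ℝ × ℝ => iq m i j (a + A.ap z)) = fun z =>
        MAS_chi m i (a + A.ap z).1 * MAS_chi m j (a + A.ap z).2 := by
      funext z; exact MAS_iq _ _ _ _
    rw [h2]
    exact ((MAS_chi_meas m i).comp (measurable_fst.comp h1)).mul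
      ((MAS_chi_meas m j).comp (measurable_snd.comp h1))
  have hfb : ∀ z : ℝ × ℝ, |iq m i j (a + A.ap z)| ≤ 1 := by
    intro z
    unfold iq
    split_ifs <;> simp
  obtain ⟨hg1, hg2⟩ := MAS_g2 _ hfm 1 hfb
  unfold mu
  rw [hg2]
  have hprod : ∫ y : ℝ × ℝ, G1 y.1 * G2 y.2 = (∫ t, G1 t) * ∫ t, G2 t := by
    rw [Measure.volume_eq_prod]
    exact integral_prod_mul G1 G2
  have hle : ∫ z : ℝ × ℝ, gaussianPDFReal 0 1 z.1 * gaussianPDFReal 0 1 z.2 *
      iq m i j (a + A.ap z) ≤ ∫ z : ℝ × ℝ, (2 * Real.pi)⁻¹ * (G1 (A.ap z).1 * G2 (A.ap z).2) := by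
    refine integral_mono hg1 (hcv1.const_mul _) fun z => ?_
    simp only
    rw [MAS_iq, MAS_pdf, MAS_pdf]
    have hz : (A.ap z).1 ^ 2 + (A.ap z).2 ^ 2 ≤ 16 * (m : ℝ) ^ 2 * (z.1 ^ 2 + z.2 ^ 2) := by
      have h1 := hnm z
      unfold nm at h1
      have h2 : (A.ap z).1 ^ 2 + (A.ap z).2 ^ 2 = (√((A.ap z).1 ^ 2 + (A.ap z).2 ^ 2)) ^ 2 :=
        (Real.sq_sqrt (by positivity)).symm
      have h3 : z.1 ^ 2 + z.2 ^ 2 = (√(z.1 ^ 2 + z.2 ^ 2)) ^ 2 :=
        (Real.sq_sqrt (by positivity)).symm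
      rw [h2, h3]
      have h4 := pow_le_pow_left₀ (Real.sqrt_nonneg _) h1 2
      calc _ ≤ _ := h4
        _ = _ := by ring
    have hexp : Real.exp (-(z.1 ^ 2 / 2)) * Real.exp (-(z.2 ^ 2 / 2)) ≤
        Real.exp (-b * (A.ap z).1 ^ 2) * Real.exp (-b * (A.ap z).2 ^ 2) := by
      rw [← Real.exp_add, ← Real.exp_add]
      apply Real.exp_le_exp.2
      have h5 : b * ((A.ap z).1 ^ 2 + (A.ap z).2 ^ 2) ≤
          b * (16 * (m : ℝ) ^ 2 * (z.1 ^ 2 + z.2 ^ 2)) := mul_le_mul_of_nonneg_left hz hb0.le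
      have h6 : b * (16 * (m : ℝ) ^ 2 * (z.1 ^ 2 + z.2 ^ 2)) = (z.1 ^ 2 + z.2 ^ 2) / 2 := by
        rw [hb]; field_simp; ring
      linarith
    have hsq : (√(2 * Real.pi))⁻¹ * (√(2 * Real.pi))⁻¹ = (2 * Real.pi)⁻¹ := by
      rw [← mul_inv, Real.mul_self_sqrt (by positivity)]
    have hc1 := MAS_chi_nonneg m i (a.1 + (A.ap z).1)
    have hc2 := MAS_chi_nonneg m j (a.2 + (A.ap z).2)
    have hpi : 0 ≤ (2 * Real.pi)⁻¹ := by positivity
    show (√(2 * Real.pi))⁻¹ * Real.exp (-(z.1 ^ 2 / 2)) * ((√(2 * Real.pi))⁻¹ *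
      Real.exp (-(z.2 ^ 2 / 2))) * (MAS_chi m i (a.1 + (A.ap z).1) *
      MAS_chi m j (a.2 + (A.ap z).2)) ≤ (2 * Real.pi)⁻¹ *
      (MAS_chi m i (a.1 + (A.ap z).1) * Real.exp (-b * (A.ap z).1 ^ 2) *
      (MAS_chi m j (a.2 + (A.ap z).2) * Real.exp (-b * (A.ap z).2 ^ 2)))
    calc _ = ((√(2 * Real.pi))⁻¹ * (√(2 * Real.pi))⁻¹) * (MAS_chi m i (a.1 + (A.ap z).1) *
          MAS_chi m j (a.2 + (A.ap z).2)) *
          (Real.exp (-(z.1 ^ 2 / 2)) * Real.exp (-(z.2 ^ 2 / 2))) := by ring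
      _ ≤ ((√(2 * Real.pi))⁻¹ * (√(2 * Real.pi))⁻¹) * (MAS_chi m i (a.1 + (A.ap z).1) *
          MAS_chi m j (a.2 + (A.ap z).2)) *
          (Real.exp (-b * (A.ap z).1 ^ 2) * Real.exp (-b * (A.ap z).2 ^ 2)) := by
        refine mul_le_mul_of_nonneg_left hexp ?_
        rw [hsq]
        positivity
      _ = _ := by rw [hsq]; ring
  refine hle.trans ?_
  rw [integral_const_mul, hcv2, hprod]
  have hJ1 : ∫ t, G1 t ≤ C1 := MAS_one m i hm a.1
  have hJ2 : ∫ t, G2 t ≤ C1 := MAS_one m j hm a.2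
  have hJ20 : 0 ≤ ∫ t, G2 t := integral_nonneg fun t =>
    mul_nonneg (MAS_chi_nonneg _ _ _) (Real.exp_nonneg _)
  have hJJ : (∫ t, G1 t) * ∫ t, G2 t ≤ C1 ^ 2 := by
    rw [sq]
    exact mul_le_mul hJ1 hJ2 hJ20 hC10
  have hpi1 : (2 * Real.pi)⁻¹ ≤ 1 := by
    apply inv_le_one_of_one_le₀
    nlinarith [Real.pi_gt_three]
  have hd : 0 < A.det⁻¹ := inv_pos.2 hA
  calc (2 * Real.pi)⁻¹ * (A.det⁻¹ * ((∫ t, G1 t) * ∫ t, G2 t))
      ≤ (2 * Real.pi)⁻¹ * (A.det⁻¹ * C1 ^ 2) := by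
        refine mul_le_mul_of_nonneg_left ?_ (by positivity)
        exact mul_le_mul_of_nonneg_left hJJ hd.le
    _ ≤ 1 * (A.det⁻¹ * C1 ^ 2) := by
        refine mul_le_mul_of_nonneg_right hpi1 (by positivity)
    _ ≤ (1 + C1 ^ 2) / A.det := by
        rw [div_eq_mul_inv]
        nlinarith

end Pool.UMD
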